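import Mathlib

namespace Pool.Agent.Results.MP_ca77af_co.UpColor
open Finset

variable {V : Type} [Fintype V]

/-- the weights of up-color dominating c-sets, over all colorings c. -/
def upWeights (G : SimpleGraph V) : Set ℕ :=
  {w | ∃ (c : V → ℕ) (D : Finset V), (∀ u v, G.Adj u v → c u ≠ c v) ∧
    (∀ v, v ∉ D → ∃ d ∈ D, G.Adj v d ∧ c v < c d) ∧ (∀ d ∈ D, c d ≠ 0) ∧ w = ∑ d ∈ D, c d}

/-- the weights of Roman dominating functions. -/
def romanWeights (G : SimpleGraph V) : Set ℕ :=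
  {w | ∃ f : V → ℕ, (∀ v, f v ≤ 2) ∧ (∀ u, f u = 0 → ∃ v, G.Adj u v ∧ f v = 2) ∧ w = ∑ v, f v}

lemma main (G : SimpleGraph V) (h : G.Colorable 2) (r : ℕ) (hr : r ∈ romanWeights G) :
    ∃ w ∈ upWeights G, w ≤ r := by
  classical
  obtain ⟨C⟩ := h
  obtain ⟨f, hf2, hf, rfl⟩ := hr
  obtain ⟨A, hA⟩ : ∃ A : V → Prop, ∀ v, A v ↔ C v = 0 ∧ ∃ u, G.Adj v u := ⟨_, fun _ => Iff.rfl⟩
  have hAB : ∀ u v, G.Adj u v → (A u ↔ ¬ A v) := by
    intro u v huv
    have h1 := C.valid huv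
    have h2 : ∀ a b : Fin 2, a ≠ b → (a = 0 ↔ ¬ b = 0) := by decide
    rw [hA, hA]
    simp only [(⟨v, huv⟩ : ∃ x, G.Adj u x), (⟨u, huv.symm⟩ : ∃ x, G.Adj v x), and_true]
    exact h2 _ _ h1
  have hg : ∀ v, ∃ u, (A v ∧ f v = 1 → G.Adj v u) ∧ (¬ (A v ∧ f v = 1) → u = v) := by
    intro v
    by_cases hv : A v ∧ f v = 1
    · obtain ⟨u, hu⟩ := ((hA v).mp hv.1).2
      exact ⟨u, fun _ => hu, fun h => absurd hv h⟩
    · exact ⟨v, fun h => absurd h hv, fun _ => rfl⟩
  choose g hg1 hg2 using hg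
  let c : V → ℕ := fun v => if A v then (if f v = 2 then 2 else 0) else 1
  have hc : ∀ v, f v ≠ 0 → c (g v) ≠ 0 ∧ c (g v) ≤ f v := by
    intro v hv
    by_cases h1 : A v ∧ f v = 1
    · have : ¬ A (g v) := (hAB _ _ (hg1 v h1)).mp h1.1
      simp [c, this, h1.2]
    · rw [hg2 v h1]
      have := hf2 v
      by_cases h2 : A v
      · have : f v = 2 := by
          have : f v ≠ 1 := fun e => h1 ⟨h2, e⟩
          omega
        simp [c, h2, this]
      · simp only [c, h2, if_false]; omega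
  refine ⟨_, ⟨c, (univ.filter (fun v => f v ≠ 0)).image g, ?_, ?_, ?_, rfl⟩, ?_⟩
  · intro u v huv
    have := hAB u v huv
    by_cases h1 : A v
    · have h2 : ¬ A u := fun h => this.mp h h1
      simp only [c, h1, h2, if_true, if_false]; split_ifs <;> omega
    · have h2 : A u := this.mpr h1
      simp only [c, h1, h2, if_true, if_false]; split_ifs <;> omega
  · intro v hv
    by_cases h0 : f v = 0
    · obtain ⟨u, hu, hu2⟩ := hf v h0
      have e : g u = u := hg2 u (fun h => by omega)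
      refine ⟨u, mem_image.mpr ⟨u, by simp [hu2], e⟩, hu, ?_⟩
      have := hAB v u hu
      by_cases h1 : A u
      · have h2 : ¬ A v := fun h => this.mp h h1
        simp [c, h1, h2, hu2]
      · have h2 : A v := this.mpr h1
        simp [c, h1, h2, h0]
    · have hm : g v ∈ (univ.filter (fun v => f v ≠ 0)).image g :=
        mem_image.mpr ⟨v, by simp [h0], rfl⟩
      by_cases h1 : A v ∧ f v = 1
      · refine ⟨g v, hm, hg1 v h1, ?_⟩
        have := (hc v h0).1
        have e : c v = 0 := by simp [c, h1.1, h1.2]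
        omega
      · rw [hg2 v h1] at hm
        exact absurd hm hv
  · intro d hd
    obtain ⟨v, hv, rfl⟩ := mem_image.mp hd
    exact (hc v (mem_filter.mp hv).2).1
  · calc ∑ d ∈ (univ.filter (fun v => f v ≠ 0)).image g, c d
        ≤ ∑ v ∈ univ.filter (fun v => f v ≠ 0), c (g v) :=
          sum_image_le_of_nonneg (fun _ _ => Nat.zero_le _)
      _ ≤ ∑ v ∈ univ.filter (fun v => f v ≠ 0), f v :=
          sum_le_sum (fun v hv => (hc v (mem_filter.mp hv).2).2)
      _ ≤ ∑ v, f v := sum_le_sum_of_subset (filter_subset _ _)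

theorem result (V : Type) [Fintype V] (G : SimpleGraph V) (h : G.IsTree ∨ G.Colorable 2) :
    ∃ a b : ℕ, IsLeast (upWeights G) a ∧ IsLeast (romanWeights G) b ∧ a ≤ b := by
  have h2 : G.Colorable 2 := h.elim (fun t => t.isAcyclic.isBipartite) id
  have n1 : (romanWeights G).Nonempty :=
    ⟨_, fun _ => 1, fun _ => by norm_num, fun _ h => by simp at h, rfl⟩
  obtain ⟨w, hw, hle⟩ := main G h2 _ (Nat.sInf_mem n1)
  exact ⟨sInf (upWeights G), sInf (romanWeights G),
    ⟨Nat.sInf_mem ⟨w, hw⟩, fun _ hx => Nat.sInf_le hx⟩,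
    ⟨Nat.sInf_mem n1, fun _ hx => Nat.sInf_le hx⟩, (Nat.sInf_le hw).trans hle⟩

end Pool.Agent.Results.MP_ca77af_co.UpColor
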